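import Pool.Agent.Helper78_MTG.Com
import Pool.Agent.Helper46_MT.Final

/-! MT100-GEN, module HDF, part (N): a rational tensor which vanishes on all conjugates of the high
part of the Hodge structure is invariant. -/

set_option autoImplicit false
set_option linter.unusedSectionVars false

namespace Pool.Agent.MT100G.H78

open Matrix Pool.Agent.MT100 Pool.Agent.Helper78_MT Pool.Agent.MT100.H78 Pool.Agent.Helper46_MT

/-- the value of the tensor -/
noncomputable def tau {n : Type} [Fintype n] (t : (Fin 4 → n) → ℚ) (x : Fin 4 → n → ℂ) : ℂ :=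
  ∑ β, (t β : ℂ) * ∏ j, x j (β j)

section
variable {n : Type} [Fintype n] [DecidableEq n]

theorem tau_conj (t : (Fin 4 → n) → ℚ) (x : Fin 4 → n → ℂ) :
    starRingEnd ℂ (tau t x) = tau t (fun j => star (x j)) := by
  unfold tau
  rw [map_sum]
  apply Finset.sum_congr rfl
  intro β _
  rw [map_mul, map_prod, map_ratCast]
  rfl

theorem tau_sum (t : (Fin 4 → n) → ℚ) (s : Finset ℕ) (y : Fin 4 → ℕ → n → ℂ) :
    tau t (fun j => ∑ p ∈ s, y j p) =
      ∑ p ∈ Fintype.piFinset (fun _ : Fin 4 => s), tau t (fun j => y j (p j)) := by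
  unfold tau
  rw [Finset.sum_comm]
  apply Finset.sum_congr rfl
  intro β _
  rw [← Finset.mul_sum]
  congr 1
  simp_rw [Finset.sum_apply]
  rw [Finset.prod_univ_sum]

theorem tau_smul (t : (Fin 4 → n) → ℚ) (c : Fin 4 → ℂ) (x : Fin 4 → n → ℂ) :
    tau t (fun j => c j • x j) = (∏ j, c j) * tau t x := by
  unfold tau
  rw [Finset.mul_sum]
  apply Finset.sum_congr rfl
  intro β _
  simp_rw [Pi.smul_apply, smul_eq_mul]
  rw [Finset.prod_mul_distrib]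
  ring

theorem aut_mul {E : Matrix n n ℚ} {a b : Matrix n n ℂ} (ha : a ∈ Aut E) (hb : b ∈ Aut E) :
    a * b ∈ Aut E := by
  have h1 : aᵀ * E.map (algebraMap ℚ ℂ) * a = E.map (algebraMap ℚ ℂ) := ha
  have h2 : bᵀ * E.map (algebraMap ℚ ℂ) * b = E.map (algebraMap ℚ ℂ) := hb
  change (a * b)ᵀ * E.map (algebraMap ℚ ℂ) * (a * b) = E.map (algebraMap ℚ ℂ)
  calc (a * b)ᵀ * E.map (algebraMap ℚ ℂ) * (a * b)
      = bᵀ * (aᵀ * E.map (algebraMap ℚ ℂ) * a) * b := by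
        rw [transpose_mul]; simp only [mul_assoc]
    _ = _ := by rw [h1, h2]

theorem aut_inv_mem {E : Matrix n n ℚ} (hE : IsUnit (E.map (algebraMap ℚ ℂ)).det) {a : Matrix n n ℂ}
    (ha : a ∈ Aut E) : a⁻¹ ∈ Aut E := by
  have h1 : aᵀ * E.map (algebraMap ℚ ℂ) * a = E.map (algebraMap ℚ ℂ) := ha
  have h2 : a * a⁻¹ = 1 := mul_nonsing_inv a (aut_det hE h1)
  have h3 : (a⁻¹)ᵀ * aᵀ = 1 := by rw [← transpose_mul, h2, transpose_one]
  change (a⁻¹)ᵀ * E.map (algebraMap ℚ ℂ) * a⁻¹ = E.map (algebraMap ℚ ℂ)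
  calc (a⁻¹)ᵀ * E.map (algebraMap ℚ ℂ) * a⁻¹
      = (a⁻¹)ᵀ * (aᵀ * E.map (algebraMap ℚ ℂ) * a) * a⁻¹ := by rw [h1]
    _ = ((a⁻¹)ᵀ * aᵀ) * E.map (algebraMap ℚ ℂ) * (a * a⁻¹) := by simp only [mul_assoc]
    _ = _ := by rw [h2, h3, one_mul, mul_one]

theorem one_aut (E : Matrix n n ℚ) : (1 : Matrix n n ℂ) ∈ Aut E := by
  change (1 : Matrix n n ℂ)ᵀ * E.map (algebraMap ℚ ℂ) * 1 = E.map (algebraMap ℚ ℂ)
  rw [transpose_one, one_mul, mul_one]

/-- the tensor along the group as a polynomial in the entries -/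
noncomputable def tp (t : (Fin 4 → n) → ℚ) (x : Fin 4 → n → ℂ) : MvPolynomial (n × n) ℂ :=
  ∑ β, MvPolynomial.C (t β : ℂ) * ∏ j, ∑ k, MvPolynomial.X (β j, k) * MvPolynomial.C (x j k)

theorem pev_tp (t : (Fin 4 → n) → ℚ) (x : Fin 4 → n → ℂ) (g : Matrix n n ℂ) :
    pev g (tp t x) = tau t (fun j => g *ᵥ x j) := by
  unfold tp tau
  rw [map_sum]
  apply Finset.sum_congr rfl
  intro β _
  rw [map_mul, map_prod, pev_C]
  congr 1
  apply Finset.prod_congr rfl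
  intro j _
  rw [map_sum]
  apply Finset.sum_congr rfl
  intro k _
  rw [map_mul, pev_X, pev_C]
  rfl

/-- **(N)** -/
theorem inv_of_hodge (hN : NrmStmt) {w : ℕ} {E : Matrix n n ℚ} {V : ℕ → Submodule ℂ (n → ℂ)}
    (hV : PolHodge w E V) (hw : Odd w) (h2 : 2 ≤ Fintype.card n) (t : (Fin 4 → n) → ℚ)
    (h : ∀ G ∈ Aut E, ∀ (p : Fin 4 → ℕ) (x : Fin 4 → n → ℂ), (∀ j, x j ∈ V (p j)) →
      2 * w < ∑ j, p j → ∑ β, (t β : ℂ) * ∏ j, (G *ᵥ x j) (β j) = 0) :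
    ∀ G ∈ Aut E, ∀ x : Fin 4 → n → ℂ,
      ∑ β, (t β : ℂ) * ∏ j, (G *ᵥ x j) (β j) = ∑ β, (t β : ℂ) * ∏ j, x j (β j) := by
  obtain ⟨π, hπ, hp1, hp2, hp3⟩ := proj_of hV
  have hEd := det_ne hV
  have hEs : Eᵀ = -E := by
    have h3 := hV.symm
    rwa [Odd.neg_one_pow hw, neg_one_smul] at h3
  have hEu : IsUnit (E.map (algebraMap ℚ ℂ)).det := det_map hEd
  have h' : ∀ G ∈ Aut E, ∀ (p : Fin 4 → ℕ) (x : Fin 4 → n → ℂ), (∀ j, x j ∈ V (p j)) →
      2 * w < ∑ j, p j → tau t (fun j => G *ᵥ x j) = 0 := h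
  -- both halves
  have H1 : ∀ G ∈ Aut E, ∀ (p : Fin 4 → ℕ) (x : Fin 4 → n → ℂ), (∀ j, p j ≤ w) →
      (∀ j, x j ∈ V (p j)) → ∑ j, p j ≠ 2 * w → tau t (fun j => G *ᵥ x j) = 0 := by
    intro G hG p x hpw hx hne
    rcases lt_or_gt_of_ne hne with hlt | hgt
    · have hG' : G.map (starRingEnd ℂ) ∈ Aut E := by
        have h3 : Gᵀ * E.map (algebraMap ℚ ℂ) * G = E.map (algebraMap ℚ ℂ) := hG
        have h4 := congrArg (fun M : Matrix n n ℂ => M.map (starRingEnd ℂ)) h3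
        simp only [Matrix.map_mul, rat_conj] at h4
        exact h4
      have h3 := h' _ hG' (fun j => w - p j) (fun j => star (x j)) (fun j => hV.conj _ (hpw j) _ (hx j))
        (by
          simp only [Fin.sum_univ_four] at hlt ⊢
          have a0 := hpw 0
          have a1 := hpw 1
          have a2 := hpw 2
          have a3 := hpw 3
          omega)
      have h4 : (fun j => G.map (starRingEnd ℂ) *ᵥ star (x j)) = fun j => star (G *ᵥ x j) := by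
        funext j
        exact (conj_mulVec G (x j)).symm
      rw [h4, ← tau_conj] at h3
      have h5 := congrArg (starRingEnd ℂ) h3
      rw [Complex.conj_conj, map_zero] at h5
      exact h5
    · exact h' G hG p x hx hgt
  -- the group
  let Γ : Set (Matrix n n ℂ) := {g | g ∈ Aut E ∧ ∀ G ∈ Aut E, ∀ x : Fin 4 → n → ℂ,
    tau t (fun j => (G * g) *ᵥ x j) = tau t (fun j => G *ᵥ x j)}
  have hex : ∀ x : n → ℂ, ∑ p ∈ Finset.range (w + 1), π p *ᵥ x = x := by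
    intro x
    rw [← sum_mulVec, hπ.sum, one_mulVec]
  -- an element of the torus
  obtain ⟨g0, hg0⟩ : ∃ g0, g0 = ((2 : ℂ) ^ w)⁻¹ • Tc w π 4 := ⟨_, rfl⟩
  have h2w : ((2 : ℂ) ^ w) ≠ 0 := pow_ne_zero _ two_ne_zero
  have hg0x : ∀ x : n → ℂ, g0 *ᵥ x =
      ∑ p ∈ Finset.range (w + 1), (((2 : ℂ) ^ w)⁻¹ * 4 ^ p) • (π p *ᵥ x) := by
    intro x
    rw [hg0, smul_mulVec]
    unfold Tc
    rw [sum_mulVec, Finset.smul_sum]
    apply Finset.sum_congr rfl
    intro p _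
    rw [smul_mulVec, smul_smul]
  have hg0A : g0 ∈ Aut E := by
    change g0ᵀ * E.map (algebraMap ℚ ℂ) * g0 = E.map (algebraMap ℚ ℂ)
    rw [hg0, transpose_smul, smul_mul_assoc, smul_mul_smul_comm, hπ.T_sim, smul_smul]
    have e : ((2 : ℂ) ^ w)⁻¹ * ((2 : ℂ) ^ w)⁻¹ * 4 ^ w = 1 := by
      have e1 : (4 : ℂ) ^ w = 2 ^ w * 2 ^ w := by rw [← mul_pow]; norm_num
      rw [e1]
      field_simp
    rw [e, one_smul]
  have hg0Γ : g0 ∈ Γ := by
    refine ⟨hg0A, ?_⟩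
    intro G hG x
    have e1 : (fun j => (G * g0) *ᵥ x j) = fun j => ∑ p ∈ Finset.range (w + 1),
        (((2 : ℂ) ^ w)⁻¹ * 4 ^ p) • (G *ᵥ (π p *ᵥ x j)) := by
      funext j
      rw [← mulVec_mulVec, hg0x, mulVec_sum]
      exact Finset.sum_congr rfl fun p _ => mulVec_smul _ _ _
    have e2 : (fun j => G *ᵥ x j) = fun j => ∑ p ∈ Finset.range (w + 1), G *ᵥ (π p *ᵥ x j) := by
      funext j
      rw [← mulVec_sum, hex]
    rw [e1, e2, tau_sum, tau_sum]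
    apply Finset.sum_congr rfl
    intro p hp
    rw [Fintype.mem_piFinset] at hp
    rw [tau_smul t (fun j => ((2 : ℂ) ^ w)⁻¹ * 4 ^ p j) (fun j => G *ᵥ (π (p j) *ᵥ x j))]
    by_cases hs : ∑ j, p j = 2 * w
    · have e3 : ∏ j : Fin 4, (((2 : ℂ) ^ w)⁻¹ * 4 ^ p j) = 1 := by
        rw [Finset.prod_mul_distrib, Finset.prod_const, Finset.card_univ, Fintype.card_fin,
          Finset.prod_pow_eq_pow_sum, hs]
        have e4 : (4 : ℂ) ^ (2 * w) = (2 ^ w) ^ 4 := by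
          rw [← pow_mul, show (4 : ℂ) = 2 ^ 2 by norm_num, ← pow_mul]
          congr 1
          ring
        rw [e4, inv_pow, inv_mul_cancel₀ (pow_ne_zero _ h2w)]
      rw [e3, one_mul]
    · rw [H1 G hG p (fun j => π (p j) *ᵥ x j)
        (fun j => Nat.lt_succ_iff.1 (Finset.mem_range.1 (hp j))) (fun j => hp1 _ _) hs, mul_zero]
  have hg0S : ¬ Scal g0 := by
    rintro ⟨c, hc⟩
    obtain ⟨p, hp, x, hx⟩ : ∃ p ≤ w, ∃ x : n → ℂ, π p *ᵥ x ≠ 0 := by
      by_contra hcon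
      push Not at hcon
      have hn : Nonempty n := Fintype.card_pos_iff.1 (by omega)
      obtain ⟨i⟩ := hn
      have h3 := hex (Pi.single i 1)
      rw [Finset.sum_eq_zero (fun p hp => hcon p (Nat.lt_succ_iff.1 (Finset.mem_range.1 hp)) _)] at h3
      have h4 := congrFun h3 i
      rw [Pi.single_eq_same] at h4
      exact zero_ne_one h4
    have key : ∀ q ≤ w, ∀ y ∈ V q, y ≠ 0 → ((2 : ℂ) ^ w)⁻¹ * 4 ^ q = c := by
      intro q hq y hy hy0
      have h3 := hg0x y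
      rw [hc, smul_mulVec, one_mulVec, Finset.sum_eq_single q] at h3
      · rw [hp2 q y hy] at h3
        by_contra hne
        apply hy0
        have h4 : (((2 : ℂ) ^ w)⁻¹ * 4 ^ q - c) • y = 0 := by rw [sub_smul, ← h3, sub_self]
        exact (smul_eq_zero.1 h4).resolve_left (sub_ne_zero.2 hne)
      · intro b _ hb
        rw [hp3 b q hb y hy, smul_zero]
      · intro hq'
        exact absurd (Finset.mem_range.2 (by omega)) hq'
    have h3 := key p hp _ (hp1 p x) hx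
    have h4 := key (w - p) (Nat.sub_le _ _) _ (hV.conj p hp _ (hp1 p x)) (star_ne_zero.2 hx)
    have h5 : (4 : ℂ) ^ p = 4 ^ (w - p) := by
      have h6 : ((2 : ℂ) ^ w)⁻¹ * 4 ^ p = ((2 : ℂ) ^ w)⁻¹ * 4 ^ (w - p) := by rw [h3, h4]
      exact mul_left_cancel₀ (inv_ne_zero h2w) h6
    have h6 : (4 : ℕ) ^ p = 4 ^ (w - p) := by exact_mod_cast h5
    have h7 := Nat.pow_right_injective (le_refl 2 |>.trans (by norm_num : 2 ≤ 4)) h6
    obtain ⟨m, hm⟩ := hw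
    omega
  have hΓA : Γ ⊆ Aut E := fun g hg => hg.1
  have hΓ1 : (1 : Matrix n n ℂ) ∈ Γ := ⟨one_aut E, fun G _ x => by rw [mul_one]⟩
  have hΓm : ∀ a ∈ Γ, ∀ b ∈ Γ, a * b ∈ Γ := by
    intro a ha b hb
    refine ⟨aut_mul ha.1 hb.1, fun G hG x => ?_⟩
    rw [← mul_assoc, hb.2 _ (aut_mul hG ha.1), ha.2 G hG]
  have hΓi : ∀ a ∈ Γ, a⁻¹ ∈ Γ := by
    intro a ha
    refine ⟨aut_inv_mem hEu ha.1, fun G hG x => ?_⟩
    have h3 := ha.2 (G * a⁻¹) (aut_mul hG (aut_inv_mem hEu ha.1)) x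
    rw [mul_assoc, nonsing_inv_mul a (aut_det hEu ha.1), mul_one] at h3
    exact h3.symm
  have hΓn : ∀ m ∈ Aut E, ∀ a ∈ Γ, m * a * m⁻¹ ∈ Γ := by
    intro m hm a ha
    refine ⟨aut_mul (aut_mul hm ha.1) (aut_inv_mem hEu hm), fun G hG x => ?_⟩
    have h3 := ha.2 (G * m) (aut_mul hG hm) (fun j => m⁻¹ *ᵥ x j)
    simp only [mulVec_mulVec] at h3
    have e1 : ∀ j : Fin 4, (G * (m * a * m⁻¹)) *ᵥ x j = (G * m * a * m⁻¹) *ᵥ x j := by
      intro j
      simp only [mul_assoc]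
    have e2 : ∀ j : Fin 4, (G * m * m⁻¹) *ᵥ x j = G *ᵥ x j := by
      intro j
      rw [mul_assoc, mul_nonsing_inv m (aut_det hEu hm), mul_one]
    simp only [e1]
    simp only [e2] at h3
    exact h3
  have hfin := hN n E hEs (isUnit_iff_ne_zero.2 hEd) (Aut E) Γ (fun f hf g hg => hf g hg)
    (fun g hg => hg) hΓA hΓ1 hΓm hΓi hΓn ⟨g0, hg0Γ, hg0S⟩
  intro G hG x
  have h3 := hfin (tp t x - MvPolynomial.C (tau t x)) (by
    intro g hg
    rw [map_sub, pev_tp, pev_C, sub_eq_zero]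
    have h4 := hg.2 1 (one_aut E) x
    simp only [one_mul, one_mulVec] at h4
    exact h4) G hG
  rw [map_sub, pev_tp, pev_C, sub_eq_zero] at h3
  exact h3

end

end Pool.Agent.MT100G.H78
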