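import Pool.Agent.MT100G.Stmts
import Pool.Agent.Helper78_M100.Lad4

/-! MT100-GEN, module COM: commutators with a Zariski dense subset of the symplectic group. -/

set_option autoImplicit false
set_option linter.unusedSectionVars false

namespace Pool.Agent.MT100G.H78

open Matrix Pool.Agent.MT100 Pool.Agent.Helper78_MT Pool.Agent.MT100.H78

variable {d : Type*} [Fintype d] [DecidableEq d]

/-- the generic matrix -/
noncomputable def gen (d : Type*) : Matrix d d (MvPolynomial (d × d) ℂ) :=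
  fun i j => MvPolynomial.X (i, j)

/-- `A g B gᵀ C` as a matrix of polynomials in the entries of `g` -/
noncomputable def pq (A B C : Matrix d d ℂ) : Matrix d d (MvPolynomial (d × d) ℂ) :=
  A.map MvPolynomial.C * gen d * B.map MvPolynomial.C * (gen d)ᵀ * C.map MvPolynomial.C

theorem pev_pq (A B C g : Matrix d d ℂ) (i j : d) :
    pev g (pq A B C i j) = (A * g * B * gᵀ * C) i j := by
  have h1 : ∀ X : Matrix d d ℂ, (X.map MvPolynomial.C).map (pev (F := ℂ) g) = X := by
    intro X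
    ext i j
    rw [Matrix.map_apply, Matrix.map_apply, pev_C]
    rfl
  have h2 : (gen d).map (pev (F := ℂ) g) = g := by
    ext i j
    rw [Matrix.map_apply, gen, pev_X]
  have h3 : (gen d)ᵀ.map (pev (F := ℂ) g) = gᵀ := by
    rw [transpose_map, h2]
  have h4 : (pq A B C).map (pev (F := ℂ) g) = A * g * B * gᵀ * C := by
    unfold pq
    rw [Matrix.map_mul, Matrix.map_mul, Matrix.map_mul, Matrix.map_mul, h1, h1, h1, h2, h3]
  rw [← h4]
  rfl

/-- the transvections are in the symplectic group -/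
theorem tr_aut {E : Matrix d d ℂ} (hskew : Eᵀ = -E) (x : d → ℂ) (t : ℂ) :
    (1 + t • s2 E x x)ᵀ * E * (1 + t • s2 E x x) = E := by
  apply bil_inj
  intro u v
  rw [← bil_mul, add_mulVec, add_mulVec, one_mulVec, one_mulVec, smul_mulVec, smul_mulVec, s2_mulVec,
    s2_mulVec]
  simp only [map_add, map_smul, LinearMap.add_apply, LinearMap.smul_apply, smul_eq_mul,
    selfz hskew x]
  rw [skewm hskew u x]
  ring

theorem aut_inv {E g : Matrix d d ℂ} (hE : IsUnit E.det) (hg : gᵀ * E * g = E) :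
    g⁻¹ = E⁻¹ * gᵀ * E := by
  apply inv_eq_left_inv
  rw [mul_assoc, mul_assoc, ← mul_assoc gᵀ, hg, nonsing_inv_mul E hE]

theorem aut_det {E g : Matrix d d ℂ} (hE : IsUnit E.det) (hg : gᵀ * E * g = E) : IsUnit g.det := by
  have h1 : IsUnit (gᵀ * E * g).det := by rw [hg]; exact hE
  rw [det_mul] at h1
  exact isUnit_of_mul_isUnit_right h1

theorem scal_of {Z : Matrix d d ℂ} (h1 : ∀ i j, i ≠ j → Z i j = 0) (h2 : ∀ i j, Z i i = Z j j) :
    Scal Z := by
  by_cases hn : Nonempty d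
  · obtain ⟨i0⟩ := hn
    refine ⟨Z i0 i0, ?_⟩
    ext i j
    rw [Matrix.smul_apply, Matrix.one_apply]
    by_cases hij : i = j
    · rw [if_pos hij, ← hij, h2 i i0]
      simp
    · rw [if_neg hij, h1 i j hij, smul_zero]
  · refine ⟨0, ?_⟩
    ext i
    exact absurd ⟨i⟩ hn

/-- a matrix for which all vectors are eigenvectors is scalar -/
theorem scal_of_eig {a : Matrix d d ℂ} (h : ∀ x : d → ℂ, ∃ c : ℂ, a *ᵥ x = c • x) : Scal a := by
  have h0 : ∀ i j, (a *ᵥ Pi.single j 1) i = a i j := by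
    intro i j
    simp
  have h1 : ∀ i j, i ≠ j → a i j = 0 := by
    intro i j hij
    obtain ⟨c, hc⟩ := h (Pi.single j 1)
    rw [← h0, hc, Pi.smul_apply, Pi.single_eq_of_ne hij, smul_zero]
  apply scal_of h1
  intro i j
  by_cases hij : i = j
  · rw [hij]
  obtain ⟨c, hc⟩ := h (Pi.single i 1 + Pi.single j 1)
  have e1 := congrFun hc i
  have e2 := congrFun hc j
  rw [mulVec_add, Pi.add_apply, h0, h0, h1 i j hij, Pi.smul_apply, Pi.add_apply, Pi.single_eq_same,
    Pi.single_eq_of_ne hij] at e1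
  rw [mulVec_add, Pi.add_apply, h0, h0, h1 j i (Ne.symm hij), Pi.smul_apply, Pi.add_apply,
    Pi.single_eq_same, Pi.single_eq_of_ne (Ne.symm hij)] at e2
  simp only [add_zero, zero_add, smul_eq_mul, mul_one] at e1 e2
  rw [e1, e2]

theorem com : ComStmt := by
  intro d _ _ J0 hskew hJ M hM hMA a ha hna
  by_contra hcon
  push Not at hcon
  have hEu : IsUnit (J0.map (algebraMap ℚ ℂ)).det := by
    have h2 := hJ.map (algebraMap ℚ ℂ)
    rwa [RingHom.map_det, RingHom.mapMatrix_apply] at h2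
  have hEs : (J0.map (algebraMap ℚ ℂ))ᵀ = -J0.map (algebraMap ℚ ℂ) := by
    rw [← transpose_map, hskew]
    ext i j
    simp
  have haA : aᵀ * J0.map (algebraMap ℚ ℂ) * a = J0.map (algebraMap ℚ ℂ) := ha
  have hA : ∀ g ∈ Aut J0, gᵀ * J0.map (algebraMap ℚ ℂ) * g = J0.map (algebraMap ℚ ℂ) := fun g hg => hg
  have hT : ∀ (x : d → ℂ) (t : ℂ), 1 + t • s2 (J0.map (algebraMap ℚ ℂ)) x x ∈ Aut J0 := fun x t =>
    tr_aut hEs x t
  revert hEu hEs haA hA hT
  generalize J0.map (algebraMap ℚ ℂ) = E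
  intro hEu hEs haA hA hT
  -- the commutator is scalar on the whole group
  have hZ : ∀ g ∈ Aut J0, Scal (a * g * (a⁻¹ * E⁻¹) * gᵀ * E) := by
    have key : ∀ g ∈ M, Scal (a * g * (a⁻¹ * E⁻¹) * gᵀ * E) := by
      intro g hg
      have h1 := hcon g hg
      rw [aut_inv hEu (hA g (hMA hg))] at h1
      have e : a * g * (a⁻¹ * E⁻¹) * gᵀ * E = a * g * a⁻¹ * (E⁻¹ * gᵀ * E) := by
        simp only [mul_assoc]
      rw [e]
      exact h1
    intro g hg
    apply scal_of
    · intro i j hij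
      rw [← pev_pq]
      apply hM _ _ g hg
      intro m hm
      rw [pev_pq]
      obtain ⟨c, hc⟩ := key m hm
      rw [hc, Matrix.smul_apply, Matrix.one_apply_ne hij, smul_zero]
    · intro i j
      have h1 := hM (pq a (a⁻¹ * E⁻¹) E i i - pq a (a⁻¹ * E⁻¹) E j j) (by
        intro m hm
        rw [map_sub, pev_pq, pev_pq]
        obtain ⟨c, hc⟩ := key m hm
        rw [hc, Matrix.smul_apply, Matrix.smul_apply, Matrix.one_apply_eq, Matrix.one_apply_eq,
          sub_self]) g hg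
      rw [map_sub, pev_pq, pev_pq] at h1
      exact sub_eq_zero.mp h1
  apply hna
  apply scal_of_eig
  intro x
  by_cases hx : x = 0
  · exact ⟨0, by rw [hx, mulVec_zero, smul_zero]⟩
  have hau : IsUnit a.det := aut_det hEu haA
  have hne : Nonempty d := by
    by_contra hcon2
    apply hx
    ext i
    exact absurd ⟨i⟩ hcon2
  -- the transvection
  obtain ⟨T, hT'⟩ : ∃ T, T = s2 E x x := ⟨_, rfl⟩
  have hTT : T * T = 0 := by rw [hT']; exact tr_sq hEs x
  have hg : 1 + T ∈ Aut J0 := by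
    have := hT x 1
    rwa [one_smul, ← hT'] at this
  obtain ⟨c, hc⟩ := hZ _ hg
  have h1 : a * (1 + T) * a⁻¹ = c • (1 + T) := by
    have e1 := aut_inv hEu (hA _ hg)
    have e2 : a * (1 + T) * (a⁻¹ * E⁻¹) * (1 + T)ᵀ * E = a * (1 + T) * a⁻¹ * (1 + T)⁻¹ := by
      rw [e1]
      simp only [mul_assoc]
    rw [e2] at hc
    have e3 : (1 + T)⁻¹ * (1 + T) = 1 := nonsing_inv_mul _ (aut_det hEu (hA _ hg))
    calc a * (1 + T) * a⁻¹ = a * (1 + T) * a⁻¹ * ((1 + T)⁻¹ * (1 + T)) := by rw [e3, mul_one]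
      _ = (a * (1 + T) * a⁻¹ * (1 + T)⁻¹) * (1 + T) := by simp only [mul_assoc]
      _ = c • (1 + T) := by rw [hc, smul_mul_assoc, one_mul]
  have htr : (1 + T).trace = (Fintype.card d : ℂ) := by
    have h2 : IsNilpotent T := ⟨2, by rw [pow_two, hTT]⟩
    have h3 := (Matrix.isNilpotent_trace_of_isNilpotent h2).eq_zero
    rw [trace_add, h3, add_zero, trace_one]
  have hc1 : c = 1 := by
    have h2 := congrArg trace h1
    rw [trace_mul_comm, ← mul_assoc, nonsing_inv_mul a hau, one_mul, trace_smul, htr,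
      smul_eq_mul] at h2
    have h3 : (Fintype.card d : ℂ) ≠ 0 := Nat.cast_ne_zero.mpr Fintype.card_ne_zero
    have h4 : (c - 1) * (Fintype.card d : ℂ) = 0 := by linear_combination -h2
    exact sub_eq_zero.mp ((mul_eq_zero.mp h4).resolve_right h3)
  have hcomm : a * T = T * a := by
    rw [hc1, one_smul] at h1
    have h2 : a * (1 + T) = (1 + T) * a := by
      calc a * (1 + T) = a * (1 + T) * (a⁻¹ * a) := by rw [nonsing_inv_mul a hau, mul_one]
        _ = (a * (1 + T) * a⁻¹) * a := by simp only [mul_assoc]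
        _ = (1 + T) * a := by rw [h1]
    rw [mul_add, mul_one, add_mul, one_mul] at h2
    exact add_left_cancel h2
  obtain ⟨u, hu⟩ : ∃ u, bil E x u ≠ 0 := by
    by_contra hcon2
    push Not at hcon2
    exact hx (nondeg hEu x hcon2)
  have h2 : a *ᵥ (T *ᵥ u) = T *ᵥ (a *ᵥ u) := by rw [mulVec_mulVec, mulVec_mulVec, hcomm]
  rw [hT', s2_mulVec, s2_mulVec, ← add_smul, ← add_smul, mulVec_smul] at h2
  refine ⟨(bil E x u + bil E x u)⁻¹ * (bil E x (a *ᵥ u) + bil E x (a *ᵥ u)), ?_⟩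
  have h3 : bil E x u + bil E x u ≠ 0 := by
    rw [← two_mul]
    exact mul_ne_zero two_ne_zero hu
  rw [← smul_smul, ← h2, smul_smul, inv_mul_cancel₀ h3, one_smul]

end Pool.Agent.MT100G.H78
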