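import Pool.Agent.Helper78_MTG.ExAss
import Pool.Agent.Helper18_MT.Nva

/-! MT100-GEN: the theorem is not empty.  For every hypergeometric datum there are a family, a rational
structure and a flat form such that polarised Hodge structures with these periods exist. -/

set_option autoImplicit false

namespace Pool.Agent.MT100G.H78

open Matrix Polynomial Pool.Agent.MT100 Pool.Agent.Helper78_MT Pool.Agent.MT100.H18

theorem pd_flat (D : Dat) {κ : ℝ} (hκ : κ ≠ 0) : ∃ c : ℂ, c ≠ 0 ∧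
    (Pd D.r κ)ᵀ * (J0 D.r).map (algebraMap ℚ ℂ) * Pd D.r κ =
      c • ((J0 D.r)⁻¹).map (algebraMap ℚ ℂ) := by
  have hκI : ((κ : ℂ) * Complex.I) ≠ 0 :=
    mul_ne_zero (Complex.ofReal_ne_zero.mpr hκ) Complex.I_ne_zero
  have hodd : Odd (D.r - 1) := by
    have := D.two_le
    exact ⟨D.s - 1, by show 2 * D.s - 1 = _; omega⟩
  have hinv : (J0 D.r)⁻¹ = -J0 D.r := by
    apply Matrix.inv_eq_right_inv
    have h1 : J0 D.r * J0 D.r = ((-1 : ℚ) ^ (D.r - 1)) • (1 : Matrix (Fin D.r) (Fin D.r) ℚ) :=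
      J0_sq (F := ℚ) D.r
    rw [hodd.neg_one_pow] at h1
    rw [mul_neg, h1, neg_smul, one_smul, neg_neg]
  refine ⟨-(((κ : ℂ) * Complex.I) ^ (D.r - 1))⁻¹, neg_ne_zero.mpr (inv_ne_zero (pow_ne_zero _ hκI)),
    ?_⟩
  rw [hinv]
  ext i j
  unfold Pd
  rw [diagonal_transpose, Matrix.mul_diagonal, Matrix.diagonal_mul, Matrix.smul_apply,
    Matrix.map_apply, Matrix.map_apply, Matrix.neg_apply, map_neg, smul_eq_mul, neg_mul_neg]
  unfold J0
  by_cases h : (i : ℕ) + j + 1 = D.r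
  · have h1 : D.r - 1 = (i : ℕ) + j := by omega
    rw [if_pos h, h1, pow_add, mul_inv]
    ring
  · rw [if_neg h, map_zero, mul_zero, mul_zero, zero_mul]

theorem nvaG (D : Dat) :
    ∃ (F : Fam (Fin D.r)) (P : Matrix (Fin D.r) (Fin D.r) ℂ) (E : Matrix (Fin D.r) (Fin D.r) ℚ)
      (n0 : ℕ), F.H = Hyp D ∧ F.N = Nsh D.r ∧ F.J0 = J0 D.r ∧ IsUnit P.det ∧ Flat F P E ∧
      ∀ n : ℕ, n0 ≤ n → ∃ V : ℕ → Submodule ℂ (Fin D.r → ℂ),
        PolHodge (D.r - 1) E V ∧ HasFil F (fun a => D.r - 1 - a) P n V := by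
  obtain ⟨F, hH, hN, hJ⟩ := exFam D
  have hκ : (0 : ℝ) < 2 * Real.pi := by positivity
  obtain ⟨n0, hn0⟩ := main_ex H97.eva' MT100.H97.hgt' MT100.H97.ana' D (2 * Real.pi) hκ
  obtain ⟨m0, hm0⟩ := exists_nat_gt (D.lam : ℝ)
  refine ⟨F, Pd D.r (2 * Real.pi), J0 D.r, max n0 m0, hH, hN, hJ, Pd_det _ _ hκ.ne', ?_, ?_⟩
  · unfold Flat
    rw [hJ]
    exact pd_flat D hκ.ne'
  · intro n hn
    obtain ⟨V, hV, hP⟩ := hn0 n (le_trans (le_max_left _ _) hn)
    refine ⟨V, hV, ?_⟩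
    have hlam : (D.lam : ℝ) < n := lt_of_lt_of_le hm0 (by exact_mod_cast le_trans (le_max_right _ _) hn)
    have hper : ∀ a, perG F (Pd D.r (2 * Real.pi)) (n : ℂ) a = per D (Pd D.r (2 * Real.pi)) n a := by
      intro a
      obtain ⟨K, q, B, hS⟩ := ex1A D
      have h1 := (ex2A D K q B hS).2 (n : ℝ) hlam
      rw [Complex.ofReal_natCast] at h1
      unfold perG per
      rw [hH, hN, h1]
      rfl
    have hr := D.r_pos
    intro p
    rcases Nat.lt_or_ge (D.r - 1) p with hp | hp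
    · have h1 : (⨆ p' ∈ Set.Ici p, V p') = ⊥ := by
        rw [iSup₂_eq_bot]
        intro p' hp'
        exact hV.top p' (lt_of_lt_of_le hp hp')
      rw [h1, eq_comm, Submodule.span_eq_bot]
      rintro y ⟨a, ha, -⟩
      have h4 : p ≤ D.r - 1 - (a : ℕ) := ha
      omega
    · have h1 := hP ⟨D.r - 1 - p, by omega⟩
      have h2 : (⨆ p' ∈ Set.Ici p, V p') = ⨆ p' ∈ Set.Icc (D.r - 1 - (D.r - 1 - p)) (D.r - 1), V p' := by
        apply le_antisymm
        · apply iSup₂_le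
          intro p' hp'
          rcases Nat.lt_or_ge (D.r - 1) p' with h3 | h3
          · rw [hV.top p' h3]
            exact bot_le
          · exact le_iSup₂_of_le p' ⟨by have : p ≤ p' := hp'; omega, h3⟩ le_rfl
        · apply iSup₂_le
          intro p' hp'
          exact le_iSup₂_of_le p' (by have := hp'.1; show p ≤ p'; omega) le_rfl
      rw [h2]
      rw [h1]
      congr 1
      ext y
      constructor
      · rintro ⟨b, hb, rfl⟩
        refine ⟨b, ?_, (hper b).symm⟩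
        have h4 : (b : ℕ) ≤ D.r - 1 - p := hb
        show p ≤ D.r - 1 - (b : ℕ)
        omega
      · rintro ⟨b, hb, rfl⟩
        refine ⟨b, ?_, hper b⟩
        have h3 := b.2
        have h4 : p ≤ D.r - 1 - (b : ℕ) := hb
        show (b : ℕ) ≤ D.r - 1 - p
        omega

end Pool.Agent.MT100G.H78
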