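import Pool.Agent.MT100G.Stmts

/-! MT100-GEN: the hypergeometric families are families in the sense of `Fam`. -/

set_option autoImplicit false

namespace Pool.Agent.MT100G

open Matrix Polynomial Pool.Agent.MT100 Pool.Agent.Helper78_MT

/-- the system of the datum, with integral coefficients -/
structure HSys (D : Dat) (K : Matrix (Fin D.r) (Fin D.r) (PowerSeries ℚ)) (q : ℤ[X])
    (B : Matrix (Fin D.r) (Fin D.r) ℤ[X]) : Prop where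
  sys : GSys (Hyp D) K (Nsh D.r) q B
  q_eq : ∃ c : ℚ, c ≠ 0 ∧ zq q = C c * (1 - C D.lam * X)

/-- X1 -/
def Ex1Stmt : Prop :=
  ∀ D : Dat, ∃ (K : Matrix (Fin D.r) (Fin D.r) (PowerSeries ℚ)) (q : ℤ[X])
    (B : Matrix (Fin D.r) (Fin D.r) ℤ[X]), HSys D K q B

/-- X2: the solution on the half plane `re w > λ` -/
def Ex2Stmt : Prop :=
  ∀ (D : Dat) (K : Matrix (Fin D.r) (Fin D.r) (PowerSeries ℚ)) (q : ℤ[X])
    (B : Matrix (Fin D.r) (Fin D.r) ℤ[X]), HSys D K q B →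
    (∀ (c : ℂ) (ρ : ℝ), 0 < ρ → Metric.ball c ρ ⊆ {w | (D.lam : ℝ) < w.re} →
      SolOn q B c ρ (YH (Hyp D) (Nsh D.r))) ∧
    ∀ w : ℝ, (D.lam : ℝ) < w → YH (Hyp D) (Nsh D.r) (w : ℂ) = (W D w).map (algebraMap ℝ ℂ)

/-- X3: the monodromy at infinity -/
def Ex3Stmt : Prop :=
  ∀ (d : Type) [Fintype d] [DecidableEq d] (H K : Matrix d d (PowerSeries ℚ)) (N : Matrix d d ℤ)
    (q : ℤ[X]) (B : Matrix d d ℤ[X]), GSys H K N q B →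
    eN N (-(2 * Real.pi * Complex.I) : ℂ) ∈ mon H N q B Set.univ

/-- X4: the monodromy at the conifold point -/
def Ex4Stmt : Prop :=
  ∀ (D : Dat) (K : Matrix (Fin D.r) (Fin D.r) (PowerSeries ℚ)) (q : ℤ[X])
    (B : Matrix (Fin D.r) (Fin D.r) ℤ[X]), HSys D K q B →
    ∃ v l : Fin D.r → ℝ, v D.fl ≠ 0 ∧ l D.fz ≠ 0 ∧ l ⬝ᵥ v = 0 ∧
      (1 + (2 * Real.pi * Complex.I : ℂ) • (vecMulVec v l).map (algebraMap ℝ ℂ)) ∈
        mon (Hyp D) (Nsh D.r) q B Set.univ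

/-- X5: the group generated by the two -/
def Ex5Stmt : Prop :=
  ∀ (D : Dat) (M : Set (Matrix (Fin D.r) (Fin D.r) ℂ)), M ⊆ Aut (J0 D.r) → 1 ∈ M →
    (∀ a ∈ M, ∀ b ∈ M, a * b ∈ M) → (∀ a ∈ M, a⁻¹ ∈ M) →
    eN (Nsh D.r) (-(2 * Real.pi * Complex.I) : ℂ) ∈ M →
    ∀ v l : Fin D.r → ℝ, v D.fl ≠ 0 → l D.fz ≠ 0 →
    (1 + (2 * Real.pi * Complex.I : ℂ) • (vecMulVec v l).map (algebraMap ℝ ℂ)) ∈ M →
    ∀ f : MvPolynomial (Fin D.r × Fin D.r) ℂ, (∀ g ∈ M, pev g f = 0) →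
      ∀ g ∈ Aut (J0 D.r), pev g f = 0

/-- X6: the hypergeometric families -/
def Ex6Stmt : Prop := ∀ D : Dat, ∃ F : Fam (Fin D.r), F.H = Hyp D ∧ F.N = Nsh D.r ∧ F.J0 = J0 D.r

end Pool.Agent.MT100G
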