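import Pool.Agent.Helper78_MTG.ExStmts
import Pool.Agent.Helper78_MTG.Com
import Pool.Agent.Helper33_MT.Fre
import Pool.Agent.Helper83_MT.Ens

/-! MT100-GEN, EX5: the monodromy at infinity and the conifold transvection generate a Zariski dense
subgroup of the symplectic group. -/

set_option autoImplicit false
set_option linter.unusedSectionVars false

namespace Pool.Agent.MT100G.H78

open Matrix Pool.Agent.MT100 Pool.Agent.Helper78_MT Pool.Agent.MT100.H78 Pool.Agent.MT100.H33

/-! ### The curve `exp (s N)` -/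

theorem en_map' (r : ℕ) {R R' : Type*} [CommRing R] [Algebra ℚ R] [CommRing R'] [Algebra ℚ R']
    (f : R →ₐ[ℚ] R') (x : R) : (en r x).map f = en r (f x) := by
  ext l i
  rw [Matrix.map_apply]
  unfold en
  split_ifs
  · rw [map_smul, map_pow]
  · rw [map_zero]

theorem en_eval' (r : ℕ) (s : ℂ) : (en r (Polynomial.X : Polynomial ℂ)).map (Polynomial.eval s) =
    en r s := by
  have h1 := en_map' r ((Polynomial.aeval (R := ℂ) s).restrictScalars ℚ) (Polynomial.X)
  rw [AlgHom.restrictScalars_apply, Polynomial.aeval_X] at h1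
  rw [← h1]
  ext l i
  rw [Matrix.map_apply, Matrix.map_apply, AlgHom.restrictScalars_apply, Polynomial.coe_aeval_eq_eval]

theorem en_inv (r : ℕ) (s : ℂ) : en r s * en r (-s) = 1 := by
  rw [en_mul_en, add_neg_cancel, en_zero]

theorem en_unit (r : ℕ) (s : ℂ) : IsUnit (en r s).det := by
  have h1 := congrArg det (en_inv r s)
  rw [det_mul, det_one] at h1
  exact IsUnit.of_mul_eq_one _ h1

/-- a linear functional which vanishes on the orbit of a cyclic vector vanishes -/
theorem cyc_zero {r : ℕ} (hr : 0 < r) {v φ : Fin r → ℂ} (hv : v ⟨r - 1, by omega⟩ ≠ 0)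
    (h : ∀ s : ℂ, φ ⬝ᵥ (en r s *ᵥ v) = 0) : φ = 0 := by
  -- the polynomial
  have hp : ∀ s : ℂ, φ ⬝ᵥ (en r s *ᵥ v) =
      (∑ l : Fin r, ∑ i : Fin r, if l ≤ i then
        Polynomial.C (φ l * v i * (((i : ℕ) - (l : ℕ)).factorial : ℂ)⁻¹) *
          Polynomial.X ^ ((i : ℕ) - (l : ℕ)) else 0 : Polynomial ℂ).eval s := by
    intro s
    simp only [dotProduct, mulVec, Polynomial.eval_finsetSum, Finset.mul_sum]
    apply Finset.sum_congr rfl
    intro l _
    apply Finset.sum_congr rfl
    intro i _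
    unfold en
    split_ifs
    · rw [Polynomial.eval_mul, Polynomial.eval_C, Polynomial.eval_pow, Polynomial.eval_X,
        Algebra.smul_def]
      simp only [eq_ratCast, Rat.cast_inv, Rat.cast_natCast]
      ring
    · rw [Polynomial.eval_zero, zero_mul, mul_zero]
  have h0 : (∑ l : Fin r, ∑ i : Fin r, if l ≤ i then
        Polynomial.C (φ l * v i * (((i : ℕ) - (l : ℕ)).factorial : ℂ)⁻¹) *
          Polynomial.X ^ ((i : ℕ) - (l : ℕ)) else 0 : Polynomial ℂ) = 0 := by
    apply poly_zero_of_eval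
    intro s _
    rw [← hp, h]
  have key : ∀ (m : ℕ) (j : Fin r), (j : ℕ) = m → φ j = 0 := by
    intro m
    induction m using Nat.strong_induction_on with
    | _ m ih =>
      intro j hj
      have h1 := congrArg (fun P : Polynomial ℂ => P.coeff (r - 1 - m)) h0
      simp only [Polynomial.finsetSum_coeff, Polynomial.coeff_zero] at h1
      rw [Finset.sum_eq_single j, Finset.sum_eq_single (⟨r - 1, by omega⟩ : Fin r)] at h1
      · rw [if_pos (by rw [Fin.le_def]; exact Nat.le_sub_one_of_lt j.2), Polynomial.coeff_C_mul,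
          Polynomial.coeff_X_pow, if_pos (by rw [hj]), mul_one] at h1
        have h2 : (((r - 1 - (j : ℕ)).factorial : ℂ))⁻¹ ≠ 0 :=
          inv_ne_zero (Nat.cast_ne_zero.mpr (Nat.factorial_ne_zero _))
        rcases mul_eq_zero.1 h1 with h3 | h3
        · exact (mul_eq_zero.1 h3).resolve_right hv
        · exact absurd h3 h2
      · intro i _ hi
        split_ifs with hji
        · rw [Polynomial.coeff_C_mul, Polynomial.coeff_X_pow, if_neg, mul_zero]
          intro h2
          apply hi
          rw [Fin.ext_iff]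
          have h3 : (j : ℕ) ≤ i := hji
          have h4 := i.2
          have h5 := j.2
          simp only
          omega
        · rw [Polynomial.coeff_zero]
      · intro h2
        exact absurd (Finset.mem_univ _) h2
      · intro l _ hl
        apply Finset.sum_eq_zero
        intro i _
        split_ifs with hli
        · rw [Polynomial.coeff_C_mul, Polynomial.coeff_X_pow]
          by_cases h2 : r - 1 - m = (i : ℕ) - (l : ℕ)
          · have h3 : (l : ℕ) ≤ i := hli
            have h4 := i.2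
            have h5 := j.2
            have h6 : (l : ℕ) ≠ m := fun h => hl (Fin.ext (by rw [h, hj]))
            rw [ih (l : ℕ) (by omega) l rfl, zero_mul, zero_mul, zero_mul]
          · rw [if_neg h2, mul_zero]
        · rw [Polynomial.coeff_zero]
      · intro h2
        exact absurd (Finset.mem_univ _) h2
  funext j
  exact key j j rfl

/-- EX5 -/
theorem ex5 : Ex5Stmt := by
  intro D M hMA h1M hMm hMi hT v l hv hl hg f hf
  obtain ⟨r, hr⟩ : ∃ r, r = D.r := ⟨_, rfl⟩
  have hr2 : 2 < D.r := by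
    have := D.two_le
    show 2 < 2 * D.s
    omega
  -- the form
  have hJs : (J0 D.r)ᵀ = -J0 D.r := by
    ext a b
    rw [transpose_apply, neg_apply]
    unfold J0
    by_cases h : (a : ℕ) + b + 1 = D.r
    · rw [if_pos (by omega), if_pos h]
      have h2 : (b : ℕ) + a + 1 = 2 * D.s := by
        have : D.r = 2 * D.s := rfl
        omega
      rcases Nat.even_or_odd (a : ℕ) with ha | ha
      · have hb : Odd (b : ℕ) := by
          rcases Nat.even_or_odd (b : ℕ) with hb | hb
          · exfalso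
            obtain ⟨x, hx⟩ := ha
            obtain ⟨y, hy⟩ := hb
            omega
          · exact hb
        rw [ha.neg_one_pow, hb.neg_one_pow]
      · have hb : Even (b : ℕ) := by
          rcases Nat.even_or_odd (b : ℕ) with hb | hb
          · exact hb
          · exfalso
            obtain ⟨x, hx⟩ := ha
            obtain ⟨y, hy⟩ := hb
            omega
        rw [ha.neg_one_pow, hb.neg_one_pow, neg_neg]
    · rw [if_neg (by omega), if_neg h, neg_zero]
  have hJu : IsUnit (J0 D.r).det := by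
    have h1 : J0 D.r * (-J0 D.r) = 1 := by
      ext a b
      rw [Matrix.mul_apply, Finset.sum_eq_single (⟨D.r - 1 - a, by omega⟩ : Fin D.r)]
      · rw [neg_apply]
        unfold J0
        have ha := a.2
        rw [if_pos (by simp only; omega)]
        by_cases h : a = b
        · subst h
          rw [if_pos (by simp only; omega), Matrix.one_apply_eq]
          have h2 : (-1 : ℚ) ^ (a : ℕ) * -(-1) ^ (D.r - 1 - (a : ℕ)) = -(-1) ^ (D.r - 1) := by
            rw [mul_neg, ← pow_add]
            congr 2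
            omega
          rw [h2]
          have h3 : Odd (D.r - 1) := ⟨D.s - 1, by
            have : D.r = 2 * D.s := rfl
            have := D.two_le
            omega⟩
          rw [h3.neg_one_pow, neg_neg]
        · rw [if_neg, Matrix.one_apply_ne h, neg_zero, mul_zero]
          intro h2
          apply h
          rw [Fin.ext_iff]
          simp only at h2
          have hb := b.2
          omega
      · intro c _ hc
        unfold J0
        rw [if_neg, zero_mul]
        intro h2
        apply hc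
        rw [Fin.ext_iff]
        simp only
        omega
      · intro h2
        exact absurd (Finset.mem_univ _) h2
    have h2 := congrArg det h1
    rw [det_mul, det_one] at h2
    exact IsUnit.of_mul_eq_one _ h2
  have hEu : IsUnit ((J0 D.r).map (algebraMap ℚ ℂ)).det := by
    have h2 := hJu.map (algebraMap ℚ ℂ)
    rwa [RingHom.map_det, RingHom.mapMatrix_apply] at h2
  have hEs : ((J0 D.r).map (algebraMap ℚ ℂ))ᵀ = -(J0 D.r).map (algebraMap ℚ ℂ) := by
    rw [← transpose_map, hJs]
    ext i j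
    simp
  obtain ⟨E, hE⟩ : ∃ E, E = (J0 D.r).map (algebraMap ℚ ℂ) := ⟨_, rfl⟩
  have hA : ∀ g : Matrix (Fin D.r) (Fin D.r) ℂ, g ∈ Aut (J0 D.r) ↔ gᵀ * E * g = E := by
    intro g
    rw [hE]
    rfl
  rw [← hE] at hEu hEs
  -- the closure
  have hMu : ∀ a ∈ M, IsUnit a.det := fun a ha => aut_det hEu ((hA a).1 (hMA ha))
  obtain ⟨G, hG⟩ : ∃ G, G = zcl M := ⟨_, rfl⟩
  have hsub : M ⊆ G := by rw [hG]; exact subset_zcl hMu
  have hone : 1 ∈ G := hsub h1M
  have hmul : ∀ a ∈ G, ∀ b ∈ G, a * b ∈ G := by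
    intro a ha b hb
    rw [hG] at ha hb ⊢
    exact zcl_mul hMm ha hb
  have hcl : ∀ X : Matrix (Fin D.r) (Fin D.r) ℂ, IsUnit X.det →
      (∀ p : MvPolynomial (Fin D.r × Fin D.r) ℂ, (∀ g ∈ G, pev g p = 0) → pev X p = 0) → X ∈ G := by
    intro X hX hXp
    rw [hG]
    refine ⟨hX, fun p hp => hXp p fun g hg => ?_⟩
    rw [hG] at hg
    exact hg.2 p hp
  have hGA : ∀ X ∈ G, Xᵀ * E * X = E := by
    intro X hX
    rw [hG] at hX
    obtain ⟨Q, hQ⟩ : ∃ Q : Matrix (Fin D.r) (Fin D.r) (MvPolynomial (Fin D.r × Fin D.r) ℂ),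
        ∀ (Y : Matrix (Fin D.r) (Fin D.r) ℂ) (i j : Fin D.r), pev Y (Q i j) = (Yᵀ * E * Y) i j := by
      refine ⟨fun i j => ∑ x, (∑ y, MvPolynomial.X (y, i) * MvPolynomial.C (E y x)) *
        MvPolynomial.X (x, j), ?_⟩
      intro Y i j
      rw [map_sum, Matrix.mul_apply]
      apply Finset.sum_congr rfl
      intro x _
      rw [map_mul, pev_X, map_sum, Matrix.mul_apply]
      congr 1
      apply Finset.sum_congr rfl
      intro y _
      rw [map_mul, pev_X, pev_C, transpose_apply]
      rfl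
    ext i j
    have h1 := hX.2 (Q i j - MvPolynomial.C (E i j)) (by
      intro m hm
      rw [map_sub, pev_C, hQ, (hA m).1 (hMA hm), sub_eq_zero]
      rfl)
    rw [map_sub, pev_C, hQ, sub_eq_zero] at h1
    exact h1
  -- the curve
  have hpi : (2 * Real.pi * Complex.I : ℂ) ≠ 0 := Complex.two_pi_I_ne_zero
  have hTk : ∀ k : ℕ, en D.r ((k : ℂ) * (2 * Real.pi * Complex.I)) ∈ M := by
    have h1 : en D.r (2 * Real.pi * Complex.I : ℂ) ∈ M := by
      have h2 := hMi _ hT
      rw [Pool.Agent.MT100.H83.ens] at h2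
      have h3 : (en D.r (-(2 * Real.pi * Complex.I) : ℂ))⁻¹ = en D.r (2 * Real.pi * Complex.I : ℂ) := by
        apply inv_eq_left_inv
        exact en_inv D.r _
      rwa [h3] at h2
    intro k
    induction k with
    | zero => rw [Nat.cast_zero, zero_mul, en_zero]; exact h1M
    | succ k ih =>
      have h2 : en D.r (((k + 1 : ℕ) : ℂ) * (2 * Real.pi * Complex.I)) =
          en D.r ((k : ℂ) * (2 * Real.pi * Complex.I)) * en D.r (2 * Real.pi * Complex.I : ℂ) := by
        rw [en_mul_en]
        congr 1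
        push_cast
        ring
      rw [h2]
      exact hMm _ ih _ h1
  have hU : ∀ s : ℂ, en D.r s ∈ G := by
    intro s
    apply hcl _ (en_unit D.r s)
    intro p hp
    have h4 : cev (en D.r (Polynomial.X : Polynomial ℂ)) p = 0 := by
      apply Polynomial.eq_zero_of_infinite_isRoot
      apply Set.infinite_of_injective_forall_mem
        (f := fun k : ℕ => (k : ℂ) * (2 * Real.pi * Complex.I))
      · intro a b hab
        exact Nat.cast_injective (mul_right_cancel₀ hpi hab)
      · intro k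
        change Polynomial.eval _ _ = 0
        rw [cev_eval, en_eval']
        exact hp _ (hsub (hTk k))
    rw [← en_eval', ← cev_eval, h4, Polynomial.eval_zero]
  -- the transvection
  obtain ⟨v', hv'⟩ : ∃ v' : Fin D.r → ℂ, v' = fun i => ((v i : ℝ) : ℂ) := ⟨_, rfl⟩
  obtain ⟨l', hl'⟩ : ∃ l' : Fin D.r → ℂ, l' = fun i => ((l i : ℝ) : ℂ) := ⟨_, rfl⟩
  have hvl : (vecMulVec v l).map (algebraMap ℝ ℂ) = vecMulVec v' l' := by
    ext i j
    rw [Matrix.map_apply, vecMulVec_apply, vecMulVec_apply, hv', hl']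
    simp
  rw [hvl] at hg
  have hv0 : v' ≠ 0 := by
    intro h0
    apply hv
    have h1 := congrFun h0 D.fl
    rw [hv'] at h1
    simpa using h1
  have hgx : ∀ x, (1 + (2 * Real.pi * Complex.I : ℂ) • vecMulVec v' l') *ᵥ x =
      x + ((2 * Real.pi * Complex.I : ℂ) * (l' ⬝ᵥ x)) • v' := by
    intro x
    rw [add_mulVec, one_mulVec, smul_mulVec, vecMulVec_mulVec]
    congr 1
    ext i
    simp
    ring
  obtain ⟨x₀, hx₀⟩ : ∃ x, bil E v' x ≠ 0 := by
    by_contra hcon
    push Not at hcon
    exact hv0 (nondeg hEu v' hcon)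
  have hrel : ∀ x y, (l' ⬝ᵥ y) * bil E x v' + (l' ⬝ᵥ x) * bil E v' y = 0 := by
    intro x y
    have h1 := bil_mul E (1 + (2 * Real.pi * Complex.I : ℂ) • vecMulVec v' l')
      (1 + (2 * Real.pi * Complex.I : ℂ) • vecMulVec v' l') x y
    rw [(hA _).1 (hMA hg), hgx, hgx] at h1
    simp only [map_add, map_smul, LinearMap.add_apply, LinearMap.smul_apply, smul_eq_mul,
      selfz hEs v'] at h1
    have h2 : (2 * Real.pi * Complex.I : ℂ) *
        ((l' ⬝ᵥ y) * bil E x v' + (l' ⬝ᵥ x) * bil E v' y) = 0 := by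
      linear_combination h1
    exact (mul_eq_zero.1 h2).resolve_left hpi
  obtain ⟨c, hc⟩ : ∃ c, c = (l' ⬝ᵥ x₀) / bil E v' x₀ := ⟨_, rfl⟩
  have hly : ∀ y, l' ⬝ᵥ y = c * bil E v' y := by
    intro y
    have h1 := hrel x₀ y
    rw [skewm hEs x₀ v'] at h1
    rw [hc]
    field_simp
    linear_combination -h1
  have hc0 : c ≠ 0 := by
    rintro rfl
    apply hl
    have h1 := hly (Pi.single D.fz 1)
    rw [zero_mul, hl', dotProduct_single, mul_one] at h1
    exact_mod_cast h1
  obtain ⟨t, ht⟩ : ∃ t : ℂ, t = (2 * Real.pi * Complex.I : ℂ) * c / 2 := ⟨_, rfl⟩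
  have ht0 : t ≠ 0 := by rw [ht]; exact div_ne_zero (mul_ne_zero hpi hc0) two_ne_zero
  have hg2 : (1 + (2 * Real.pi * Complex.I : ℂ) • vecMulVec v' l') = 1 + t • s2 E v' v' := by
    apply ext_mulVec
    intro x
    rw [hgx, hly, add_mulVec, one_mulVec, smul_mulVec, s2_mulVec, ht]
    module
  rw [hg2] at hg
  obtain ⟨T, hT'⟩ : ∃ T, T = s2 E v' v' := ⟨_, rfl⟩
  have hTT : T * T = 0 := by rw [hT']; exact tr_sq hEs v'
  have hgk : ∀ k : ℕ, 1 + ((k : ℂ) * t) • T ∈ M := by
    intro k
    induction k with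
    | zero => rw [Nat.cast_zero, zero_mul, zero_smul, add_zero]; exact h1M
    | succ k ih =>
      have h2 : 1 + (((k + 1 : ℕ) : ℂ) * t) • T = (1 + ((k : ℂ) * t) • T) * (1 + t • T) := by
        rw [mul_add, mul_one, add_mul, one_mul, smul_mul_smul_comm, hTT]
        push_cast
        module
      rw [h2]
      refine hMm _ ih _ ?_
      rw [hT']
      exact hg
  have hunip : ∀ s : ℂ, 1 + s • T ∈ G := by
    intro s
    apply hcl
    · have h1 : (1 + s • T) * (1 - s • T) = 1 := by
        rw [mul_sub, mul_one, add_mul, one_mul, smul_mul_smul_comm, hTT, smul_zero, add_zero,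
          add_sub_cancel_right]
      have h2 := congrArg det h1
      rw [det_mul, det_one] at h2
      exact IsUnit.of_mul_eq_one _ h2
    · intro p hp
      have h4 : cev (lin 1 T) p = 0 := by
        apply Polynomial.eq_zero_of_infinite_isRoot
        apply Set.infinite_of_injective_forall_mem (f := fun k : ℕ => (k : ℂ) * t)
        · intro a b hab
          exact Nat.cast_injective (mul_right_cancel₀ ht0 hab)
        · intro k
          change Polynomial.eval _ _ = 0
          rw [cev_eval, lin_eval]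
          exact hp _ (hsub (hgk k))
      rw [← lin_eval, ← cev_eval, h4, Polynomial.eval_zero]
  -- the orbit
  have hUA : ∀ s : ℂ, (en D.r s)ᵀ * E * en D.r s = (1 : ℂ) • E := by
    intro s
    rw [one_smul]
    exact hGA _ (hU s)
  have horb : ∀ s : ℂ, s2 E (en D.r s *ᵥ v') (en D.r s *ᵥ v') ∈ lieOf G := by
    intro s
    apply lieOf_unip hmul (tr_sq hEs _)
    intro a
    rw [← conj_tr (hUA s) (en_inv D.r s) v' a, ← hT']
    exact hmul _ (hmul _ (hU s) _ (hunip _)) _ (hU (-s))
  have hvfl : v' ⟨D.r - 1, by omega⟩ ≠ 0 := by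
    rw [hv']
    have : v ⟨D.r - 1, by omega⟩ ≠ 0 := hv
    simpa using this
  have hspan : Submodule.span ℂ {x | ∃ s : ℂ, x = en D.r s *ᵥ v'} = ⊤ := by
    by_contra hne
    obtain ⟨φ, hφ0, hφ⟩ := Submodule.exists_le_ker_of_lt_top _ (lt_top_iff_ne_top.2 hne)
    apply hφ0
    have h1 : (fun i => φ (Pi.single i 1)) = (0 : Fin D.r → ℂ) := by
      apply cyc_zero (by omega) hvfl
      intro s
      have h2 : φ (en D.r s *ᵥ v') = 0 := hφ (Submodule.subset_span ⟨s, rfl⟩)
      have h3 : ∀ x : Fin D.r → ℂ, (fun i => φ (Pi.single i 1)) ⬝ᵥ x = φ x := by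
        intro x
        have h4 : x = ∑ i, x i • (Pi.single i (1 : ℂ) : Fin D.r → ℂ) := by
          ext k
          simp [Finset.sum_apply, Pi.single_apply]
        conv_rhs => rw [h4, map_sum]
        unfold dotProduct
        apply Finset.sum_congr rfl
        intro i _
        rw [map_smul, smul_eq_mul, mul_comm]
      rw [h3, h2]
    apply LinearMap.pi_ext'
    intro i
    ext
    simpa using congrFun h1 i
  -- connectedness
  obtain ⟨ψ, hψ⟩ : ∃ ψ : Polynomial ℂ, ∀ s : ℂ, ψ.eval s = bil E v' (en D.r s *ᵥ v') := by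
    refine ⟨∑ i, ∑ j, Polynomial.C ((v' ᵥ* E) i) * (en D.r (Polynomial.X : Polynomial ℂ) i j *
      Polynomial.C (v' j)), ?_⟩
    intro s
    rw [bil_apply, dotProduct_mulVec]
    simp only [Polynomial.eval_finsetSum, Polynomial.eval_mul, Polynomial.eval_C, dotProduct, mulVec,
      Finset.mul_sum]
    apply Finset.sum_congr rfl
    intro i _
    apply Finset.sum_congr rfl
    intro j _
    have h1 := congrFun (congrFun (en_eval' D.r s) i) j
    rw [Matrix.map_apply] at h1
    rw [h1]
  have hψ0 : ψ ≠ 0 := by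
    intro h0
    apply hv0
    apply nondeg hEu
    intro u
    have hu : u ∈ Submodule.span ℂ {x | ∃ s : ℂ, x = en D.r s *ᵥ v'} := by rw [hspan]; trivial
    have hle : Submodule.span ℂ {x | ∃ s : ℂ, x = en D.r s *ᵥ v'} ≤ LinearMap.ker (bil E v') := by
      rw [Submodule.span_le]
      rintro _ ⟨s, rfl⟩
      change bil E v' (en D.r s *ᵥ v') = 0
      rw [← hψ, h0, Polynomial.eval_zero]
    exact hle hu
  have hab : ∀ a b : ℂ, bil E (en D.r a *ᵥ v') (en D.r b *ᵥ v') = ψ.eval (b - a) := by
    intro a b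
    have h1 : en D.r b = en D.r a * en D.r (b - a) := by rw [en_mul_en]; congr 1; ring
    rw [h1, ← mulVec_mulVec, bil_mul, hUA, one_smul, hψ]
  have hfin : {s : ℂ | ψ.eval s = 0}.Finite := by
    have h1 : {s : ℂ | ψ.eval s = 0} ⊆ (ψ.roots.toFinset : Set ℂ) := by
      intro s hs
      rw [Finset.mem_coe, Multiset.mem_toFinset, Polynomial.mem_roots hψ0]
      exact hs
    exact (Finset.finite_toSet _).subset h1
  have hL : ∀ x, s2 E x x ∈ lieOf G := by
    intro x
    apply conn (S := {x | ∃ s : ℂ, x = en D.r s *ᵥ v'}) hEs (fun A hA B hB => lieOf_br hA hB)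
    · rintro _ ⟨s, rfl⟩
      exact horb s
    · rintro _ ⟨a, rfl⟩ _ ⟨b, rfl⟩
      obtain ⟨c, hc⟩ : ∃ c : ℂ, c ∉ ((fun s => s + a) '' {s : ℂ | ψ.eval s = 0}) ∪
          ((fun s => b - s) '' {s : ℂ | ψ.eval s = 0}) :=
        ((hfin.image _).union (hfin.image _)).infinite_compl.nonempty
      rw [Set.mem_union, not_or] at hc
      have h1 : bil E (en D.r a *ᵥ v') (en D.r c *ᵥ v') ≠ 0 := by
        rw [hab]
        intro h0
        exact hc.1 ⟨c - a, h0, by ring⟩
      have h2 : bil E (en D.r c *ᵥ v') (en D.r b *ᵥ v') ≠ 0 := by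
        rw [hab]
        intro h0
        exact hc.2 ⟨b - c, h0, by ring⟩
      exact (Relation.ReflTransGen.single ⟨⟨c, rfl⟩, h1⟩).tail ⟨⟨b, rfl⟩, h2⟩
    · exact hspan
  intro g hgA
  have h1 : g ∈ G := sp_le hEu hEs hone hmul hcl hL g ((hA g).1 hgA)
  rw [hG] at h1
  exact h1.2 f hf

end Pool.Agent.MT100G.H78
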