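import Pool.Agent.Helper78_MTG.Ex5
import Pool.Agent.Helper11_MTG.Mon

/-! MT100-GEN, EX6: the hypergeometric systems are families in the sense of `Fam`. -/

set_option autoImplicit false

namespace Pool.Agent.MT100G.H78

open Matrix Polynomial Pool.Agent.MT100 Pool.Agent.Helper78_MT

theorem j0_skew (D : Dat) : (J0 D.r)ᵀ = -J0 D.r := by
  ext a b
  rw [transpose_apply, neg_apply]
  unfold J0
  by_cases h : (a : ℕ) + b + 1 = D.r
  · rw [if_pos (by omega), if_pos h]
    have h2 : (b : ℕ) + a + 1 = 2 * D.s := by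
      have : D.r = 2 * D.s := rfl
      omega
    rcases Nat.even_or_odd (a : ℕ) with ha | ha
    · have hb : Odd (b : ℕ) := by
        rcases Nat.even_or_odd (b : ℕ) with hb | hb
        · exfalso
          obtain ⟨x, hx⟩ := ha
          obtain ⟨y, hy⟩ := hb
          omega
        · exact hb
      rw [ha.neg_one_pow, hb.neg_one_pow]
    · have hb : Even (b : ℕ) := by
        rcases Nat.even_or_odd (b : ℕ) with hb | hb
        · exact hb
        · exfalso
          obtain ⟨x, hx⟩ := ha
          obtain ⟨y, hy⟩ := hb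
          omega
      rw [ha.neg_one_pow, hb.neg_one_pow, neg_neg]
  · rw [if_neg (by omega), if_neg h, neg_zero]

theorem j0_unit (D : Dat) : IsUnit (J0 D.r).det := by
  have h1 : J0 D.r * (-J0 D.r) = 1 := by
    ext a b
    rw [Matrix.mul_apply, Finset.sum_eq_single (⟨D.r - 1 - a, by omega⟩ : Fin D.r)]
    · rw [neg_apply]
      unfold J0
      have ha := a.2
      rw [if_pos (by simp only; omega)]
      by_cases h : a = b
      · subst h
        rw [if_pos (by simp only; omega), Matrix.one_apply_eq]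
        have h2 : (-1 : ℚ) ^ (a : ℕ) * -(-1) ^ (D.r - 1 - (a : ℕ)) = -(-1) ^ (D.r - 1) := by
          rw [mul_neg, ← pow_add]
          congr 2
          omega
        rw [h2]
        have h3 : Odd (D.r - 1) := ⟨D.s - 1, by
          have : D.r = 2 * D.s := rfl
          have := D.two_le
          omega⟩
        rw [h3.neg_one_pow, neg_neg]
      · rw [if_neg, Matrix.one_apply_ne h, neg_zero, mul_zero]
        intro h2
        apply h
        rw [Fin.ext_iff]
        simp only at h2
        have hb := b.2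
        omega
    · intro c _ hc
      unfold J0
      rw [if_neg, zero_mul]
      intro h2
      apply hc
      rw [Fin.ext_iff]
      simp only
      omega
    · intro h2
      exact absurd (Finset.mem_univ _) h2
  have h2 := congrArg det h1
  rw [det_mul, det_one] at h2
  exact IsUnit.of_mul_eq_one _ h2

theorem j0_flat (r : ℕ) : ((Nsh r).map (fun x => (x : ℚ)))ᵀ * J0 r +
    J0 r * (Nsh r).map (fun x => (x : ℚ)) = 0 := by
  ext a b
  rw [Matrix.add_apply, Matrix.mul_apply, Matrix.mul_apply, Matrix.zero_apply]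
  have ha := a.2
  have hb := b.2
  by_cases h : (a : ℕ) + b = r
  · rw [Finset.sum_eq_single (⟨a - 1, by omega⟩ : Fin r),
      Finset.sum_eq_single (⟨b - 1, by omega⟩ : Fin r)]
    · rw [transpose_apply, Matrix.map_apply, Matrix.map_apply]
      unfold Nsh J0
      simp only
      rw [if_pos (by omega), if_pos (by omega), if_pos (by omega), if_pos (by omega)]
      obtain ⟨m, hm⟩ : ∃ m : ℕ, (a : ℕ) = m + 1 := ⟨a - 1, by omega⟩
      rw [hm]
      simp only [Nat.add_sub_cancel, pow_succ]
      push_cast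
      ring
    · intro c _ hc
      rw [Matrix.map_apply]
      unfold Nsh
      rw [if_neg, Int.cast_zero, mul_zero]
      intro h2
      apply hc
      rw [Fin.ext_iff]
      simp only
      omega
    · intro h2
      exact absurd (Finset.mem_univ _) h2
    · intro c _ hc
      rw [transpose_apply, Matrix.map_apply]
      unfold Nsh
      rw [if_neg, Int.cast_zero, zero_mul]
      intro h2
      apply hc
      rw [Fin.ext_iff]
      simp only
      omega
    · intro h2
      exact absurd (Finset.mem_univ _) h2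
  · rw [Finset.sum_eq_zero, Finset.sum_eq_zero, add_zero]
    · intro c _
      rw [Matrix.map_apply]
      unfold Nsh J0
      by_cases h2 : (c : ℕ) + 1 = b
      · rw [if_neg (by omega), zero_mul]
      · rw [if_neg h2, Int.cast_zero, mul_zero]
    · intro c _
      rw [transpose_apply, Matrix.map_apply]
      unfold Nsh J0
      by_cases h2 : (c : ℕ) + 1 = a
      · rw [if_neg (c := (c : ℕ) + b + 1 = r) (by omega), mul_zero]
      · rw [if_neg h2, Int.cast_zero, zero_mul]

/-- EX6, in a more precise form -/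
theorem ex6' (h1 : Ex1Stmt) (h3 : Ex3Stmt) (h4 : Ex4Stmt) (pai : PaiStmt) (D : Dat) :
    ∃ F : Fam (Fin D.r), F.H = Hyp D ∧ F.N = Nsh D.r ∧ F.J0 = J0 D.r ∧ F.J = Jm D ∧ F.s = 1 ∧
      ∃ c : ℚ, c ≠ 0 ∧ zq F.q = C c * (1 - C D.lam * X) := by
  obtain ⟨K, q, B, hS⟩ := h1 D
  obtain ⟨-, hP⟩ := pai D
  have hpair : (Hyp D)ᵀ * (Jm D).map (fun p => (p : PowerSeries ℚ)) * Hyp D =
      ((1 : ℚ[X]) : PowerSeries ℚ) • (J0 D.r).map (fun x => PowerSeries.C x) := by
    rw [hP, Polynomial.coe_one, one_smul]
  obtain ⟨m1, m2, m3, m4⟩ := H11.mon_gen hS.sys one_ne_zero (j0_unit D) hpair (j0_flat D.r)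
  obtain ⟨v, l, hv, hl, -, hg⟩ := h4 D K q B hS
  have h5 := ex5 D (mon (Hyp D) (Nsh D.r) q B Set.univ) m1 m2 m3 m4
    (h3 (Fin D.r) (Hyp D) K (Nsh D.r) q B hS.sys) v l hv hl hg
  exact ⟨{ H := Hyp D, K := K, N := Nsh D.r, q := q, B := B, J := Jm D, s := 1, J0 := J0 D.r,
           sys := hS.sys, s_ne := one_ne_zero, skew := j0_skew D, unit := j0_unit D,
           pair := hpair, flat := j0_flat D.r, big := h5 }, rfl, rfl, rfl, rfl, rfl, hS.q_eq⟩

/-- EX6 -/
theorem ex6 (h1 : Ex1Stmt) (h3 : Ex3Stmt) (h4 : Ex4Stmt) (pai : PaiStmt) : Ex6Stmt := by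
  intro D
  obtain ⟨F, hF1, hF2, hF3, -⟩ := ex6' h1 h3 h4 pai D
  exact ⟨F, hF1, hF2, hF3⟩

end Pool.Agent.MT100G.H78
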