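import Pool.Agent.Helper97_MT.Ass
import Pool.Agent.Helper75_MTG.Ex1
import Pool.Agent.Helper75_MTG.Ex2
import Pool.Agent.Helper46_MTG.Ex3
import Pool.Agent.Helper33_MTG.Ex4
import Pool.Agent.Helper78_MTG.Ex6
import Pool.Agent.Helper67_MTG.Ode
import Pool.Agent.Helper47_MT100G.Uni

/-! Assembly of the examples of MT100-GEN: every hypergeometric datum gives a family in the sense of
`Fam`. -/

set_option autoImplicit false

namespace Pool.Agent.MT100G.H78

open Matrix Polynomial Pool.Agent.MT100 Pool.Agent.Helper78_MT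

theorem ex1A : Ex1Stmt := H75.ex1 MT100.H97.hyp' MT100.H97.pai' MT100.H97.hgt'
theorem ex2A : Ex2Stmt := H75.ex2 MT100.H97.pai' MT100.H97.hgr' MT100.H83.ens
theorem ex3A : Ex3Stmt := H46.ex3
theorem ex4A : Ex4Stmt := H33.ex4 H67.ode H47.uni MT100.H97.con' MT100.H97.cyc' ex2A

/-- every hypergeometric datum gives a family -/
theorem exFam : Ex6Stmt := ex6 ex1A ex3A ex4A MT100.H97.pai'

/-- the same, with the pairing and the singular points of the family -/
theorem exFam' (D : Dat) :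
    ∃ F : Fam (Fin D.r), F.H = Hyp D ∧ F.N = Nsh D.r ∧ F.J0 = J0 D.r ∧ F.J = Jm D ∧ F.s = 1 ∧
      ∃ c : ℚ, c ≠ 0 ∧ zq F.q = C c * (1 - C D.lam * X) :=
  ex6' ex1A ex3A ex4A MT100.H97.pai' D

end Pool.Agent.MT100G.H78
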